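import Pool.Agent.Run7.h567.PD.Iface

/-!
# PD, piece ANN: an irreducible representation killed by the annihilator of `T` is a subquotient of `T`

Proof. Let `w` be a nonzero vector of `S` and `I j` the left ideal of the `a` in the group algebra with `alg T a e_i = 0` for
all `i < j`. Then `alg S a w = 0` for all `a` in `I k`, but not for `a = 1` in `I 0`. Take `j` with `alg S (I j) w ≠ 0`,
`alg S (I (j + 1)) w = 0`. The map `alg T a e_j ↦ alg S a w`, `a ∈ I j`, is well defined and equivariant, with nonzero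
image. (Burnside's theorem is not needed.)
-/

set_option autoImplicit false

namespace Pool.Agent.Run7.h354.PD

open Matrix Run7.h567.GO Run7.h567.PD

section

variable {Γ : Type} [Group Γ] {E : Type} [Field E]

theorem alg_single {n : ℕ} (S : MRep Γ E n) (g : Γ) : alg S (MonoidAlgebra.single g 1) = S g := by
  unfold alg
  rw [MonoidAlgebra.lift_single, one_smul]

/-- the elements of the group algebra that kill the first `j` unit vectors -/
noncomputable def II {k : ℕ} (T : MRep Γ E k) (j : ℕ) : Submodule E (MonoidAlgebra E Γ) where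
  carrier := {a | ∀ i : Fin k, i.val < j → alg T a *ᵥ (Pi.single i 1) = 0}
  add_mem' := by
    intro a b ha hb i hi
    rw [map_add, Matrix.add_mulVec, ha i hi, hb i hi, add_zero]
  zero_mem' := by
    intro i _
    rw [map_zero, Matrix.zero_mulVec]
  smul_mem' := by
    intro c a ha i hi
    rw [map_smul, Matrix.smul_mulVec, ha i hi, smul_zero]

theorem mem_II {k : ℕ} (T : MRep Γ E k) (j : ℕ) (a : MonoidAlgebra E Γ) :
    a ∈ II T j ↔ ∀ i : Fin k, i.val < j → alg T a *ᵥ (Pi.single i 1) = 0 := Iff.rfl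

theorem II_mul {k : ℕ} (T : MRep Γ E k) (j : ℕ) (g : Γ) {a : MonoidAlgebra E Γ}
    (ha : a ∈ II T j) : MonoidAlgebra.single g 1 * a ∈ II T j := by
  intro i hi
  rw [map_mul, ← Matrix.mulVec_mulVec, ha i hi, Matrix.mulVec_zero]

theorem step {n k : ℕ} (S : MRep Γ E n) (T : MRep Γ E k) (hS : Irred S) (w : Fin n → E)
    (j : Fin k) (h1 : ∃ a ∈ II T j.val, alg S a *ᵥ w ≠ 0)
    (h2 : ∀ a ∈ II T (j.val + 1), alg S a *ᵥ w = 0) : SubQ S T := by
  let α : II T j.val →ₗ[E] (Fin k → E) :=
    { toFun := fun a => alg T a.1 *ᵥ (Pi.single j 1)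
      map_add' := fun a b => by
        change alg T (a.1 + b.1) *ᵥ _ = _
        rw [map_add, Matrix.add_mulVec]
      map_smul' := fun c a => by
        change alg T (c • a.1) *ᵥ _ = _
        rw [map_smul, Matrix.smul_mulVec]
        rfl }
  let β : II T j.val →ₗ[E] (Fin n → E) :=
    { toFun := fun a => alg S a.1 *ᵥ w
      map_add' := fun a b => by
        change alg S (a.1 + b.1) *ᵥ _ = _
        rw [map_add, Matrix.add_mulVec]
      map_smul' := fun c a => by
        change alg S (c • a.1) *ᵥ _ = _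
        rw [map_smul, Matrix.smul_mulVec]
        rfl }
  have hα : ∀ a, α a = alg T a.1 *ᵥ (Pi.single j 1) := fun _ => rfl
  have hβ : ∀ a, β a = alg S a.1 *ᵥ w := fun _ => rfl
  have hker : LinearMap.ker α ≤ LinearMap.ker β := by
    intro a ha
    rw [LinearMap.mem_ker] at ha ⊢
    rw [hα] at ha
    rw [hβ]
    refine h2 a.1 ?_
    intro i hi
    rcases Nat.lt_succ_iff_lt_or_eq.1 hi with h | h
    · exact a.2 i h
    · have : i = j := Fin.ext h
      rw [this, ha]
  let π : LinearMap.range α →ₗ[E] (Fin n → E) :=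
    (LinearMap.ker α).liftQ β hker ∘ₗ α.quotKerEquivRange.symm.toLinearMap
  have hπ : ∀ a, ∀ h : α a ∈ LinearMap.range α, π ⟨α a, h⟩ = β a := by
    intro a h
    change (LinearMap.ker α).liftQ β hker (α.quotKerEquivRange.symm ⟨α a, h⟩) = β a
    rw [LinearMap.quotKerEquivRange_symm_apply_image]
    rfl
  have hg : ∀ (g : Γ) (a : II T j.val),
      T g *ᵥ α a = α ⟨MonoidAlgebra.single g 1 * a.1, II_mul T j.val g a.2⟩ := by
    intro g a
    rw [hα, hα, map_mul, alg_single, Matrix.mulVec_mulVec]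
  have hg' : ∀ (g : Γ) (a : II T j.val),
      S g *ᵥ β a = β ⟨MonoidAlgebra.single g 1 * a.1, II_mul T j.val g a.2⟩ := by
    intro g a
    rw [hβ, hβ, map_mul, alg_single, Matrix.mulVec_mulVec]
  have hU : ∀ g, ∀ u ∈ LinearMap.range α, T g *ᵥ u ∈ LinearMap.range α := by
    rintro g _ ⟨a, rfl⟩
    rw [hg]
    exact ⟨_, rfl⟩
  refine ⟨LinearMap.range α, hU, π, ?_, ?_⟩
  · rw [← LinearMap.range_eq_top]
    rcases hS.2 (LinearMap.range π) (by
      rintro g _ ⟨⟨_, a, rfl⟩, rfl⟩
      have e1 : π ⟨α a, LinearMap.mem_range_self α a⟩ = β a := hπ a _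
      have e2 : S g *ᵥ β a ∈ LinearMap.range π := by
        rw [hg', ← hπ _ (LinearMap.mem_range_self α _)]
        exact LinearMap.mem_range_self π _
      rw [← e1] at e2
      exact e2) with h | h
    · exfalso
      obtain ⟨a, ha, hne⟩ := h1
      refine hne ?_
      have h3 : π ⟨α ⟨a, ha⟩, LinearMap.mem_range_self α _⟩ ∈ LinearMap.range π :=
        LinearMap.mem_range_self π _
      rw [h, Submodule.mem_bot, hπ, hβ] at h3
      exact h3
    · exact h
  · rintro g ⟨_, a, rfl⟩
    have h3 : (⟨T g *ᵥ α a, hU g (α a) (LinearMap.mem_range_self α a)⟩ : LinearMap.range α) =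
        ⟨α ⟨MonoidAlgebra.single g 1 * a.1, II_mul T j.val g a.2⟩,
          LinearMap.mem_range_self α _⟩ :=
      Subtype.ext (hg g a)
    have e1 : π ⟨α a, LinearMap.mem_range_self α a⟩ = β a := hπ a _
    have e2 : π ⟨T g *ᵥ α a, hU g (α a) (LinearMap.mem_range_self α a)⟩ = S g *ᵥ β a := by
      rw [h3, hπ, hg']
    rw [← e1] at e2
    exact e2

/-- the statement over any field -/
theorem ann {n k : ℕ} (S : MRep Γ E n) (T : MRep Γ E k) (hS : Irred S)
    (h : ∀ a, alg T a = 0 → alg S a = 0) : SubQ S T := by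
  classical
  have hw : ∃ w : Fin n → E, w ≠ 0 := by
    refine ⟨Pi.single ⟨0, hS.1⟩ 1, ?_⟩
    intro h0
    have := congrFun h0 ⟨0, hS.1⟩
    rw [Pi.single_eq_same] at this
    exact one_ne_zero this
  obtain ⟨w, hw⟩ := hw
  let P : ℕ → Prop := fun j => ∀ a ∈ II T j, alg S a *ᵥ w = 0
  have hPk : P k := by
    intro a ha
    have h0 : alg T a = 0 := by
      ext x y
      have h1 := congrFun (ha y y.2) x
      rw [Matrix.mulVec_single_one] at h1
      exact h1
    rw [h a h0, Matrix.zero_mulVec]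
  have hP0 : ¬ P 0 := by
    intro h0
    have h1 := h0 1 (by
      intro i hi
      exact absurd hi (Nat.not_lt_zero _))
    rw [map_one, Matrix.one_mulVec] at h1
    exact hw h1
  have hex : ∃ j, P j := ⟨k, hPk⟩
  have hj0 : Nat.find hex ≠ 0 := by
    intro h0
    have := Nat.find_spec hex
    rw [h0] at this
    exact hP0 this
  obtain ⟨j, hj⟩ := Nat.exists_eq_succ_of_ne_zero hj0
  have hjk : j < k := by
    have := Nat.find_min' hex hPk
    omega
  have hlt : ¬ P j := Nat.find_min hex (by omega)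
  have hsp : P (j + 1) := by
    have := Nat.find_spec hex
    rw [hj] at this
    exact this
  refine step S T hS w ⟨j, hjk⟩ ?_ hsp
  by_contra hcon
  push Not at hcon
  exact hlt hcon

end

theorem t_ANN : S_BURN → S_ANN := by
  intro _ Γ _ E _ _ n k S T hS h
  exact ann S T hS h

end Pool.Agent.Run7.h354.PD
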