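import Pool.Agent.Run7.h567.PD.Iface
import Pool.Agent.Helper864_WL.Burnside

/-!
# PD, piece BURN: Burnside's theorem for matrix representations
-/

set_option autoImplicit false

namespace Pool.Agent.Run7.h354.PD

open Matrix Run7.h567.GO Run7.h567.PD

theorem t_BURN : S_BURN := by
  intro Γ _ E _ _ n S hS
  have hspan : Submodule.span E (Set.range fun g => S g) = ⊤ :=
    Pool.Agent.Helper864WL.burnside (MonoidHom.toHomUnits S) (fun W hW => hS.2 W hW) hS.1
  have hle : Submodule.span E (Set.range fun g => S g) ≤ LinearMap.range (alg S).toLinearMap := by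
    rw [Submodule.span_le]
    rintro _ ⟨g, rfl⟩
    refine ⟨MonoidAlgebra.single g 1, ?_⟩
    change alg S (MonoidAlgebra.single g 1) = S g
    unfold alg
    rw [MonoidAlgebra.lift_single, one_smul]
  rw [hspan, top_le_iff, LinearMap.range_eq_top] at hle
  exact hle

end Pool.Agent.Run7.h354.PD
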